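import Pool.Agent.Lib_helper64.NPC.Blk.F12d
import Pool.Agent.Lib_helper37.HDH.Num
import Pool.Agent.Lib_helper74.PHS.Slot

/-!
# The polynomial hierarchy is infinite and Turing-complete languages are many-one complete
-/

set_option autoImplicit false

namespace Pool.Agent.NPC

open Pool.Agent.CK Pool.Agent.PHS

/-- the hard language of the level `2 k + 1` -/
noncomputable def HQ (k : ℕ) : Lang → Lang := (up (2 * k)).choose

theorem HQ_sig (k : ℕ) (O : Lang) : InSig O (2 * k + 1) (HQ k O) := (up (2 * k)).choose_spec.1 O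

theorem HQ_iff (k : ℕ) (O : Lang) (m : ℕ) (x : List Bool) :
    HQ k O (ones m ++ false :: x) = true ↔
      alt (2 * k + 1) m (fun a => ¬ ∃ l' : List Bool, a.length + l'.length = x.length ∧
        O (saddr x (a ++ l') true) = true) := (up (2 * k)).choose_spec.2 O m x

theorem length_il : ∀ x y : List Bool, x.length = y.length → (il x y).length = 2 * x.length := by
  intro x
  induction x with
  | nil => intro y _; rfl
  | cons a x ih =>
    intro y h
    cases y with
    | nil => simp at h
    | cons b y =>
      have := ih y (by simpa using h)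
      simp only [il, List.length_cons, this]
      ring

theorem length_saddr {x y : List Bool} (b : Bool) (h : x.length = y.length) :
    (saddr x y b).length = 2 * x.length + 2 := by
  unfold saddr
  rw [List.length_cons, List.length_cons, List.length_reverse, length_il x y h]

theorem alt_congr' (m : ℕ) : ∀ (K : ℕ) (f g : List Bool → Prop), (∀ l, f l ↔ g l) →
    (alt K m f ↔ alt K m g) := by
  intro K
  induction K with
  | zero => intro f g h; exact h []
  | succ K ih =>
    intro f g h
    exact exists_congr fun a => and_congr_right fun _ => not_congr (ih _ _ fun l => h (a ++ l))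

theorem HQ_congr (k : ℕ) (O O' : Lang) (m : ℕ) (x : List Bool)
    (h : ∀ w : List Bool, w.length = 2 * x.length + 2 → O w = O' w) :
    HQ k O (ones m ++ false :: x) = HQ k O' (ones m ++ false :: x) := by
  rw [Bool.eq_iff_iff, HQ_iff, HQ_iff]
  apply alt_congr'
  intro a
  refine not_congr (exists_congr fun l' => and_congr_right fun hl => ?_)
  rw [h _ (length_saddr true (by rw [List.length_append]; exact hl.symm))]

/-- The language of the level `k` with index `s` can be made wrong. -/
theorem forces_PH (dh : DepthHierarchy) (k : ℕ) (s : List ℕ) :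
    Forces (fun O => ∃ w, SL k s O w ≠ HQ k O w) := by
  intro st
  obtain ⟨C, m0, hkill⟩ := kill dh k s
  obtain ⟨E, hE⟩ := SL_congr k s
  set J := C + 4 * E + 3 with hJ
  set K := 2 * k + 1 with hK
  obtain ⟨n0, hn0⟩ := epoch (G := st.G) (M := st.G.image fun g => (g.1, g.2.1))
    (fun g hg => Finset.mem_image_of_mem _ hg) st.nt st.leg st.unk J (st.N + 1) (by omega)
  -- the size
  set m := max (max m0 n0) (4 * K + 2) with hm
  have hm0 : m0 ≤ m := (le_max_left _ _).trans (le_max_left _ _)
  have hmn : n0 ≤ m := (le_max_right _ _).trans (le_max_left _ _)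
  have hmK : 4 * K + 2 ≤ m := le_max_right _ _
  set b := 4 * (K * m) with hb
  have hmb : m ≤ b := by
    have h1 : m ≤ K * m := Nat.le_mul_of_pos_left _ (by omega)
    omega
  obtain ⟨hkb, hNb, hfam⟩ := hn0 b (hmn.trans hmb)
  have hfam' := hfam J le_rfl
  obtain ⟨L, hL⟩ : ∃ L, L = b ^ 2 ^ J := ⟨_, rfl⟩
  rw [← hL] at hfam'
  obtain ⟨hNC, A, hA, hbig⟩ := hfam'
  have h2J : J < 2 ^ J := Nat.lt_two_pow_self
  have hbm2 : b ≤ m ^ 2 := by
    have : 4 * K * m ≤ m * m := Nat.mul_le_mul_right _ (by omega)
    calc b = 4 * K * m := by rw [hb]; ring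
      _ ≤ m * m := this
      _ = m ^ 2 := by ring
  have hCL : m ^ C ≤ L := by
    rw [hL]
    exact (Nat.pow_le_pow_left hmb C).trans (Nat.pow_le_pow_right (by omega) (by omega))
  have hb2 : 2 ≤ b := by omega
  have h8 : b ^ 3 ≤ L := by
    rw [hL]
    exact Nat.pow_le_pow_right (by omega) (by omega)
  have hbL : 2 * b + 2 < L := by
    have h9 : 6 ≤ b := by omega
    have h10 : b ^ 3 = b * b * b := by ring
    have h11 : 6 * b ≤ b * b := Nat.mul_le_mul_right _ h9
    have h12 : 6 * (b * b) ≤ b * b * b := by
      rw [Nat.mul_comm]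
      exact Nat.mul_le_mul_left _ h9
    omega
  -- the slot
  obtain ⟨x, hxR⟩ : ∃ x, x ∈ A.R ∧ x.length = b := by
    by_contra hcon
    push Not at hcon
    have h1 := hbig.1 b (by omega) hbL
    have h2 : (A.R.filter fun r => r.length = b) = ∅ := by
      apply Finset.filter_eq_empty_iff.2
      intro r hr
      exact hcon r hr
    rw [h2, Finset.card_empty, Nat.mul_zero] at h1
    exact absurd h1 (by have := Nat.one_le_two_pow (n := b); omega)
  obtain ⟨hxR, hxb⟩ := hxR
  have hx4 : x.length / 4 = K * m := by rw [hxb, hb]; omega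
  obtain ⟨lab, hlab⟩ := exists_lab A x K m hx4 (fun κ hκ => by
    have h1 := hbig.2.2 x hxR κ hκ
    have h2 : 0 < 2 ^ hx J J x.length := by positivity
    exact Finset.card_pos.1 (lt_of_lt_of_le h2 h1))
  -- the diagonalization
  obtain ⟨v, hv⟩ := hkill m hm0 x (by rw [hxb]; exact hbm2) (fun v => A.F (phst x K m lab v))
    (fun w hw => CertC.mono (certC_phst A x K m lab hlab w
      (lt_of_le_of_lt (key_le w) (lt_of_lt_of_le hw hCL))) hw.le)
    (fun v l hl => read_phst A x hxR K m lab hlab v l hl)
  rw [← HQ_iff] at hv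
  have hNTn : NT st.G b st.O := fun g hg => by
    obtain ⟨h1, h2⟩ := st.nt g hg
    exact ⟨h1.trans hNb, h2⟩
  have hbL2 : b ≤ L := by omega
  obtain ⟨O', hO', hleg⟩ := legal_ext (G := st.G) (n := b) (L := L)
    hbL2 hNTn (hA.1 (phst x K m lab v)) (hA.2 (phst x K m lab v))
  refine ⟨L, O', by omega, ?_, hleg, ?_⟩
  · intro w hw
    rw [hO' w (by omega), hA.1 (phst x K m lab v) w (by omega)]
  · intro O'' hO''
    refine ⟨ones m ++ false :: x, fun he => hv ?_⟩
    have hag : ∀ w : List Bool, w.length < L → A.F (phst x K m lab v) w = O'' w := by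
      intro w hw
      have h1 : key w < L := lt_of_le_of_lt (key_le w) hw
      rw [hO'' w h1, hO' w h1]
    have e1 : SL k s (A.F (phst x K m lab v)) (ones m ++ false :: x) =
        SL k s O'' (ones m ++ false :: x) := by
      apply hE
      intro w hw
      apply hag
      refine lt_of_lt_of_le hw ?_
      have h1 : (ones m ++ false :: x).length + 2 ≤ m ^ 4 := by
        rw [List.length_append, List.length_cons]
        have h2 : (ones m).length = m := List.length_replicate ..
        rw [h2]
        have h3 : m ≤ m ^ 2 := by nlinarith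
        have h4 : 4 ≤ m ^ 2 := by nlinarith
        have h5 : m ^ 4 = m ^ 2 * m ^ 2 := by ring
        have h6 : 4 * m ^ 2 ≤ m ^ 2 * m ^ 2 := Nat.mul_le_mul_right _ h4
        omega
      calc ((ones m ++ false :: x).length + 2) ^ E ≤ (m ^ 4) ^ E := Nat.pow_le_pow_left h1 _
        _ = m ^ (4 * E) := (pow_mul _ _ _).symm
        _ ≤ b ^ (4 * E) := Nat.pow_le_pow_left hmb _
        _ ≤ L := by
          rw [hL]
          exact Nat.pow_le_pow_right (by omega) (by omega)
    have e2 : HQ k (A.F (phst x K m lab v)) (ones m ++ false :: x) =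
        HQ k O'' (ones m ++ false :: x) := by
      apply HQ_congr
      intro w hw
      apply hag
      rw [hw, hxb]
      exact hbL
    rw [e1, e2, he]

open Classical in
/-- the list of goals -/
noncomputable def phgoal (j : ℕ) (O : Lang) : Prop :=
  if j.unpair.1 = 0 then ∃ x, NL j.unpair.2 O x ≠ !(CK.V O x)
  else ∃ w, SL (j.unpair.1 - 1) ((Encodable.decode (α := List ℕ) j.unpair.2).getD []) O w ≠
    HQ (j.unpair.1 - 1) O w

theorem forces_phgoal (dh : DepthHierarchy) (j : ℕ) : Forces (phgoal j) := by
  by_cases h : j.unpair.1 = 0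
  · have e : phgoal j = fun O => ∃ x, NL j.unpair.2 O x ≠ !(CK.V O x) := by
      funext O
      exact if_pos h
    rw [e]
    exact forces_NP _
  · have e : phgoal j = fun O => ∃ w, SL (j.unpair.1 - 1)
        ((Encodable.decode (α := List ℕ) j.unpair.2).getD []) O w ≠ HQ (j.unpair.1 - 1) O w := by
      funext O
      exact if_neg h
    rw [e]
    exact forces_PH dh _ _

/-- An oracle relative to which the polynomial hierarchy is infinite and the Turing-complete
languages for `NP` are many-one complete. -/
theorem main_PH (dh : DepthHierarchy) : ∃ O V : Lang,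
    (∀ k, ∃ L, InSig O (k + 1) L ∧ ¬ InSig O k L) ∧
    InNP O V ∧ ¬ InNP O (fun x => !V x) ∧ ManyOneComplete O V ∧
    (∀ C, InNP O C → TuringReducible O V C → ManyOneComplete O C) ∧
    ∀ C, TuringComplete O C → ManyOneComplete O C := by
  obtain ⟨O, h1, h2⟩ := limit_oracle phgoal (forces_phgoal dh)
  obtain ⟨h3, h4, h5⟩ := collapse h2
  refine ⟨O, CK.V O, ?_, inNP_V O, ?_, h3, h4, h5⟩
  · apply ph_infinite
    intro k
    refine ⟨HQ k O, HQ_sig k O, fun s hs => ?_⟩
    have h6 := h1 (Nat.pair (k + 1) (Encodable.encode s))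
    unfold phgoal at h6
    rw [if_neg (by rw [Nat.unpair_pair]; exact Nat.succ_ne_zero k)] at h6
    simp only [Nat.unpair_pair, Encodable.encodek, Option.getD_some, Nat.add_sub_cancel] at h6
    obtain ⟨w, hw⟩ := h6
    exact hw (by rw [hs])
  · intro hN
    obtain ⟨i, hi⟩ := exists_NL hN
    have h6 := h1 (Nat.pair 0 i)
    unfold phgoal at h6
    rw [if_pos (by rw [Nat.unpair_pair])] at h6
    simp only [Nat.unpair_pair] at h6
    obtain ⟨x, hx⟩ := h6
    exact hx (congrFun hi x)

end Pool.Agent.NPC
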