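import Pool.Agent.Lib_helper74.CKF.DT

/-!
# Restrictions, terms, queries (MP_675993_lc, oracle with NP <> coNP and T-complete = m-complete)

Abstract layer.  Literals are pairs (root, label).  A restriction fixes for every root `r` a hidden
set `(ρ r).2` of labels and whether `r` is alive (`(ρ r).1 = true`: the state of `r` is an arbitrary
subset of the hidden set) or dropped (`(ρ r).1 = false`: the state is the hidden set).
-/

set_option autoImplicit false

namespace Pool.Agent.NPC

open Pool.Agent.CK

/-- A term: literals that must be true, literals that must be false. -/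
structure Term (ι Λ : Type) where
  pos : Finset (ι × Λ)
  neg : Finset (ι × Λ)

/-- Restrictions. -/
abbrev Rst (ι Λ : Type) : Type := ι → Bool × Finset Λ

section

variable {ι Λ : Type}

/-- the state `ω` satisfies the term -/
def Term.Holds (π : Term ι Λ) (ω : ι × Λ → Bool) : Prop :=
  (∀ p ∈ π.pos, ω p = true) ∧ ∀ p ∈ π.neg, ω p = false

/-- number of literals of the term -/
def Term.size (π : Term ι Λ) : ℕ := π.pos.card + π.neg.card

/-- the state `ω` is compatible with `ρ` -/
def Comp (ρ : Rst ι Λ) (ω : ι × Λ → Bool) : Prop :=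
  ∀ r l, (l ∉ (ρ r).2 → ω (r, l) = false) ∧ ((ρ r).1 = false → l ∈ (ρ r).2 → ω (r, l) = true)

/-- the term is falsified by `ρ` (contradictory terms are always falsified) -/
def Term.Fals (π : Term ι Λ) (ρ : Rst ι Λ) : Prop :=
  (∃ p ∈ π.pos, p ∈ π.neg) ∨ (∃ p ∈ π.pos, p.2 ∉ (ρ p.1).2) ∨
    ∃ p ∈ π.neg, (ρ p.1).1 = false ∧ p.2 ∈ (ρ p.1).2

/-- the term is satisfied by `ρ` -/
def Term.Sat (π : Term ι Λ) (ρ : Rst ι Λ) : Prop :=
  (∀ p ∈ π.pos, (ρ p.1).1 = false ∧ p.2 ∈ (ρ p.1).2) ∧ ∀ p ∈ π.neg, p.2 ∉ (ρ p.1).2

open Classical in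
/-- The value of a query (an ordered list of terms with values) under `ρ`: the value of the first
term that is not falsified if this term is satisfied, `false` if all terms are falsified,
`none` (the query is open) otherwise. -/
noncomputable def res (ρ : Rst ι Λ) : List (Term ι Λ × Bool) → Option Bool
  | [] => some false
  | a :: L => if a.1.Fals ρ then res ρ L else if a.1.Sat ρ then some a.2 else none

/-- The computation `t`, with the question `w` answered by `v w`, meets an unanswered question. -/
def Stuck (v : List Bool → Option Bool) : DT Bool → Prop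
  | DT.leaf _ => False
  | DT.node w n0 n1 => v w = none ∨ (v w = some false ∧ Stuck v n0) ∨ (v w = some true ∧ Stuck v n1)

/-- the restrictions with hidden sets inside `H` -/
def RS [Fintype ι] [DecidableEq ι] (H : ι → Finset Λ) : Finset (Rst ι Λ) :=
  Fintype.piFinset fun r => (Finset.univ : Finset Bool) ×ˢ (H r).powerset

/-- product weight -/
def wt [Fintype ι] (p : ι → Bool × Finset Λ → ℝ) (ρ : Rst ι Λ) : ℝ := ∏ r, p r (ρ r)

/-- An event that is closed under the refinements used in the switching lemma: an alive root is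
dropped after some labels have been removed from its hidden set. -/
def Closed [DecidableEq ι] [DecidableEq Λ] (E : Rst ι Λ → Prop) : Prop :=
  ∀ (ρ : Rst ι Λ) (r : ι) (Z : Finset Λ), (ρ r).1 = true → E ρ →
    E (Function.update ρ r (false, (ρ r).2 \ Z))

/-- The random restriction: `r` is alive with probability `θ`, the hidden set is a random subset of
`H r` with density `η r`. -/
noncomputable def pw (θ : ℝ) (η : ι → ℝ) (H : ι → Finset Λ) (r : ι) (x : Bool × Finset Λ) : ℝ :=
  (if x.1 = true then θ else 1 - θ) * (η r ^ x.2.card * (1 - η r) ^ ((H r).card - x.2.card))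

/-- The root `r` is good for the computation `t` with queries `qs`: it is alive, the computation is
not stuck when the state of `r` is empty, and for at least half of the labels `l` it is not
stuck when the state of `r` is `{l}`. -/
def GoodRoot [DecidableEq ι] [DecidableEq Λ] (ρ : Rst ι Λ) (r : ι) (t : DT Bool)
    (qs : List Bool → List (Term ι Λ × Bool)) : Prop :=
  (ρ r).1 = true ∧ ¬ Stuck (fun w => res (Function.update ρ r (false, ∅)) (qs w)) t ∧
    ∃ B : Finset Λ, 2 * B.card ≤ (ρ r).2.card ∧ ∀ l ∈ (ρ r).2, l ∉ B →
      ¬ Stuck (fun w => res (Function.update ρ r (false, {l})) (qs w)) t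

/-- The hidden set of `r` is large in all classes `P ∈ cls r`. -/
def HBig [DecidableEq Λ] (η : ι → ℝ) (cls : ι → Finset (Finset Λ)) (ρ : Rst ι Λ) (r : ι) : Prop :=
  ∀ P ∈ cls r, η r * P.card ≤ 4 * ((ρ r).2 ∩ P).card

end

end Pool.Agent.NPC
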