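import Pool.Agent.Lib_helper64.NPC.Fam
import Pool.Agent.Lib_helper64.NPC.Abs

/-! # Auxiliary definitions -/

set_option autoImplicit false

namespace Pool.Agent.NPC

open Pool.Agent.CK

/-- the value of the computation `t` with the question `w` answered by `v w` -/
def rv (v : List Bool → Option Bool) : DT Bool → Bool
  | DT.leaf b => b
  | DT.node w n0 n1 => if v w = some true then rv v n1 else rv v n0

/-- the questions of the computation -/
def rq (v : List Bool → Option Bool) : DT Bool → List (List Bool)
  | DT.leaf _ => []
  | DT.node w n0 n1 => w :: (if v w = some true then rq v n1 else rq v n0)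

open Classical in
/-- the state of the old family for a state of the restricted family -/
noncomputable def rstate (keep : Finset (List Bool)) (ρ : List Bool → Bool × Finset (List Bool))
    (ω : St) : St := fun p =>
  if p.1 ∈ keep then ω p && decide (p.2 ∈ (ρ p.1).2)
  else if (ρ p.1).1 = true then false else decide (p.2 ∈ (ρ p.1).2)

/-- a state of the free slots as a state -/
def est {L : ℕ} (A : Fam L) (ω : {r // r ∈ A.R} × List Bool → Bool) : St := fun p =>
  if h : p.1 ∈ A.R then ω (⟨p.1, h⟩, p.2) else false

/-- node function for the pair `(i, j)` -/
noncomputable def nf {L : ℕ} (A : Fam L) (i : ℕ) (w : List Bool)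
    (ω : {r // r ∈ A.R} × List Bool → Bool) : Bool :=
  join (A.F (est A ω)) (NL i (A.F (est A ω))) w

end Pool.Agent.NPC
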