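import Pool.Agent.Lib_helper74.CKF.FINAL

/-!
# Families of oracles (MP_675993_lc, oracle with NP <> coNP and T-complete = m-complete)

The oracles of a family are parametrized by the states of finitely many free slots.  A slot is a
string `r`; its positions are `saddr r l true`, `|l| = |r|`.
-/

set_option autoImplicit false

namespace Pool.Agent.NPC

open Pool.Agent.CK

/-- literals: (slot, label) -/
abbrev Lit : Type := List Bool × List Bool

/-- states -/
abbrev St : Type := Lit → Bool

/-- weight of a literal: the length of its position -/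
def lw (p : Lit) : ℕ := 2 * p.1.length + 2

/-- weight of a set of literals -/
def tw (T : Finset Lit) : ℕ := ∑ p ∈ T, lw p

/-- `T` is a certificate for the value of `f` at the state `ω` -/
def Cert {β : Type} (f : St → β) (ω : St) (T : Finset Lit) : Prop :=
  ∀ ω' : St, (∀ p ∈ T, ω' p = ω p) → f ω' = f ω

/-- A local family of oracles up to level `L`: free slots `R` with label sets `H`, the oracle
`F ω` for the state `ω`. -/
structure Fam (L : ℕ) where
  /-- free slots -/
  R : Finset (List Bool)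
  /-- hidden labels -/
  H : List Bool → Finset (List Bool)
  /-- the oracles -/
  F : St → Lang
  hR : ∀ r ∈ R, 2 * r.length + 2 < L
  hH : ∀ r, ∀ l ∈ H r, l.length = r.length
  free : ∀ r ∈ R, ∀ l : List Bool, l.length = r.length → ∀ ω,
    F ω (saddr r l true) = (decide (l ∈ H r) && ω (r, l))
  cert : ∀ ω w, key w < L → ∃ T : Finset Lit, (∀ p ∈ T, p.1 ∈ R ∧ p.2 ∈ H p.1) ∧
    tw T ≤ w.length ∧ Cert (fun ω => F ω w) ω T

/-! ## Requirements -/

/-- The entries that must be correct: `G` is a list of triples `(i, j, a)`. -/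
def Act (G : Finset (ℕ × ℕ × ℕ)) (e : ℕ) : Prop :=
  Adeq e ∧ ∃ g ∈ G, iC e = g.1 ∧ iM e = g.2.1 ∧ g.2.2 ≤ ia e

/-- all entries are correct -/
def Legal (G : Finset (ℕ × ℕ × ℕ)) (O : Lang) : Prop := ∀ e, Act G e → ∀ z, Good O e z

/-- all entries below `N` are correct -/
def LegalTo (G : Finset (ℕ × ℕ × ℕ)) (N : ℕ) (O : Lang) : Prop :=
  ∀ e, Act G e → ∀ z, alen e z < N → Good O e z

/-- the target languages have a yes-instance and a no-instance, decided below `N` -/
def NT (G : Finset (ℕ × ℕ × ℕ)) (N : ℕ) (O : Lang) : Prop :=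
  ∀ g ∈ G, (g.2.2 + 2) ^ (g.1 + 2) ≤ N ∧ ∃ q0 q1 : List Bool, q0.length ≤ g.2.2 ∧
    q1.length ≤ g.2.2 ∧ NL g.1 O q0 = false ∧ NL g.1 O q1 = true

/-- the Turing reduction `PL j` of `V` to `NL i` is correct relative to `O` -/
def Cor (i j : ℕ) (O : Lang) : Prop := ∀ x, PL j (join O (NL i O)) x = V O x

/-- the reductions in `M` are correct in all legal extensions -/
def Unk (G : Finset (ℕ × ℕ × ℕ)) (M : Finset (ℕ × ℕ)) (N : ℕ) (O : Lang) : Prop :=
  ∀ O', Ext N O O' → Legal G O' → ∀ m ∈ M, Cor m.1 m.2 O'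

/-- the slot size for the entry `(e, z)` -/
def sl (e : ℕ) (z : List Bool) : ℕ := (z.length + 2) ^ (2 * iN e + 2)

/-- The family extends `O` (below `n`) and is legal below `L`. -/
def FamOK (G : Finset (ℕ × ℕ × ℕ)) (n : ℕ) (O : Lang) {L : ℕ} (A : Fam L) : Prop :=
  (∀ ω, Ext n O (A.F ω)) ∧ ∀ ω, LegalTo G L (A.F ω)

/-- the class of labels of length `b` with prefix `κ` in `S` -/
def cl (b : ℕ) (κ : List Bool) (S : Finset (List Bool)) : Finset (List Bool) :=
  S.filter fun l => l.take (b / 4) = κ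

/-- There are many free slots, and all classes of hidden labels are large. -/
def FamBig (n : ℕ) (h : ℕ → ℕ) {L : ℕ} (A : Fam L) : Prop :=
  (∀ b, n ≤ 2 * b + 2 → 2 * b + 2 < L → 2 ^ b ≤ L ^ 20 * (A.R.filter fun r => r.length = b).card) ∧
  (∀ r ∈ A.R, n ≤ 2 * r.length + 2) ∧
  ∀ r ∈ A.R, ∀ κ : List Bool, κ.length = r.length / 4 → 2 ^ h r.length ≤ (cl r.length κ (A.H r)).card

/-- The question `q` about `NL i` is equivalent to the state of `r` being nonempty, for states
inside `S`. -/
def HGood {L : ℕ} (A : Fam L) (i : ℕ) (r q : List Bool) (S : Finset (List Bool)) : Prop :=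
  S ⊆ A.H r ∧ ∀ ω : St, (∀ l ∈ A.H r, ω (r, l) = true → l ∈ S) →
    (NL i (A.F ω) q = true ↔ ∃ l ∈ S, ω (r, l) = true)

/-- all labels of length `b` -/
noncomputable def labs (b : ℕ) : Finset (List Bool) := (List.finite_length_eq Bool b).toFinset

/-- the exponent of the density of the hidden sets: `J` is the number of stages -/
def te (J b : ℕ) : ℕ := b / (4 * J) - 2

/-- exponent of the lower bound for the classes of hidden labels after `j` of `J` stages -/
def hx (J j b : ℕ) : ℕ := b - b / 4 - j * (b / (4 * J))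

/-- `L` is small in comparison with all slots of the epoch: the numerical condition -/
def NC (J n L : ℕ) : Prop := 16 ≤ L ∧ n ≤ L ∧ ∀ b, n ≤ 2 * b + 2 → L ^ 100 ≤ 2 ^ (b / (4 * J))

/-- `B` is a subfamily of `A`: some slots are no longer free, their states are functions of the
state. -/
def Sub {L : ℕ} (B A : Fam L) : Prop :=
  B.R ⊆ A.R ∧ (∀ r ∈ B.R, B.H r ⊆ A.H r) ∧ ∃ g : St → St, (∀ ω, B.F ω = A.F (g ω)) ∧
    ∀ r ∈ B.R, ∀ l ∈ B.H r, ∀ ω, g ω (r, l) = ω (r, l)

/-! ## The outer construction -/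

/-- The state of the construction: `O` is decided below `N`. -/
structure CS where
  N : ℕ
  O : Lang
  G : Finset (ℕ × ℕ × ℕ)
  nt : NT G N O
  leg : Legal G O
  unk : Unk G (G.image fun g => (g.1, g.2.1)) N O

/-- The goal can be forced at every state of the construction. -/
def Forces (goal : Lang → Prop) : Prop :=
  ∀ s : CS, ∃ (N' : ℕ) (O' : Lang), s.N < N' ∧ Ext s.N s.O O' ∧ Legal s.G O' ∧
    ∀ O'', Ext N' O' O'' → goal O''

end Pool.Agent.NPC
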